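import Mathlib

open Set

namespace Pool.Agent.Q132.CPoly

variable {V : Type*} [Fintype V] [DecidableEq V] {E : Type*} [NormedAddCommGroup E]
  [NormedSpace ℝ E]

/-- Either `x` is a convex combination of the `r s`, `s ∈ S`, or it can be separated from them. -/
lemma sep (S : Finset V) (r : V → E) (x : E) :
    (∃ c : V → ℝ, (∀ w, 0 ≤ c w) ∧ (∀ w, w ∉ S → c w = 0) ∧ ∑ w, c w = 1 ∧
      x = ∑ w, c w • r w) ∨ ∃ b : E →L[ℝ] ℝ, ∀ s ∈ S, b x < b (r s) := by
  set H : Set E := {y | ∃ c : V → ℝ, (∀ w, 0 ≤ c w) ∧ (∀ w, w ∉ S → c w = 0) ∧ ∑ w, c w = 1 ∧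
      y = ∑ w, c w • r w} with hH
  have hsub : convexHull ℝ (r '' (S : Set V)) ⊆ H := by
    apply convexHull_min
    · rintro _ ⟨s, hs, rfl⟩
      refine ⟨fun w => if w = s then 1 else 0, ?_, ?_, ?_, ?_⟩
      · intro w; dsimp only; split_ifs <;> norm_num
      · intro w hw
        dsimp only
        rw [if_neg]
        rintro rfl
        exact hw hs
      · simp
      · simp [ite_smul]
    · rintro y ⟨c, hc1, hc2, hc3, hc4⟩ z ⟨d, hd1, hd2, hd3, hd4⟩ α β hα hβ hαβ
      refine ⟨fun w => α * c w + β * d w, ?_, ?_, ?_, ?_⟩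
      · intro w
        have := hc1 w
        have := hd1 w
        positivity
      · intro w hw
        simp [hc2 w hw, hd2 w hw]
      · rw [Finset.sum_add_distrib, ← Finset.mul_sum, ← Finset.mul_sum, hc3, hd3]
        linarith
      · rw [hc4, hd4, Finset.smul_sum, Finset.smul_sum, ← Finset.sum_add_distrib]
        apply Finset.sum_congr rfl
        intro w _
        rw [add_smul, mul_smul, mul_smul]
  by_cases hx : x ∈ convexHull ℝ (r '' (S : Set V))
  · exact Or.inl (hsub hx)
  · right
    have hfin : (r '' (S : Set V)).Finite := S.finite_toSet.image r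
    obtain ⟨f, u, h1, h2⟩ := geometric_hahn_banach_point_closed (convex_convexHull ℝ _)
      (hfin.isCompact_convexHull ℝ).isClosed hx
    refine ⟨f, fun s hs => h1.trans (h2 _ (subset_convexHull ℝ _ ⟨s, hs, rfl⟩))⟩

/-- The generators are irredundant: none is a nonnegative combination of the others. -/
def Irr (n : V → E) : Prop :=
  ∀ v, ¬ ∃ c : V → ℝ, (∀ w, 0 ≤ c w) ∧ c v = 0 ∧ n v = ∑ w, c w • n w

/-- `v` and `w` span a two-dimensional face of the cone. -/
def Edge (n : V → E) (v w : V) : Prop :=
  v ≠ w ∧ ∃ a : E →L[ℝ] ℝ, a (n v) = 0 ∧ a (n w) = 0 ∧ ∀ u, u ≠ v → u ≠ w → 0 < a (n u)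

omit [NormedSpace ℝ E] in
lemma sum_two [NormedSpace ℝ E] (n : V → E) {v w : V} (h : v ≠ w) (α β : ℝ) :
    ∑ s, (if s = v then α else if s = w then β else 0) • n s = α • n v + β • n w := by
  have h1 : ∀ s, (if s = v then α else if s = w then β else 0) • n s =
      (if s = v then α • n v else 0) + (if s = w then β • n w else 0) := by
    intro s
    by_cases h1 : s = v
    · subst h1; simp [h]
    · by_cases h2 : s = w
      · subst h2; simp [h1]
      · simp [h1, h2]
  simp_rw [h1]
  rw [Finset.sum_add_distrib]
  simp

/-- A generator is not a nonnegative combination of two others. -/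
lemma Irr.not_two {n : V → E} (h : Irr n) {u v w : V} (huv : u ≠ v) (huw : u ≠ w) (hvw : v ≠ w)
    {α β : ℝ} (hα : 0 ≤ α) (hβ : 0 ≤ β) : n u ≠ α • n v + β • n w := by
  intro heq
  apply h u
  refine ⟨fun s => if s = v then α else if s = w then β else 0, ?_, ?_, ?_⟩
  · intro s; dsimp only; split_ifs <;> first | assumption | exact le_rfl
  · simp [huv, huw]
  · rw [sum_two n hvw]; exact heq

/-- Expansion of a generator in terms of `n v` and the neighbours of `v`. -/
theorem edge_expansion {n : V → E} (hirr : Irr n) (l : E →L[ℝ] ℝ) (hl : ∀ v, 0 < l (n v))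
    (v : V) : ∀ u, u ≠ v → ∃ (α : ℝ) (c : V → ℝ), (∀ w, 0 ≤ c w) ∧
      (∀ w, c w ≠ 0 → Edge n v w) ∧ n u = α • n v + ∑ w, c w • n w := by
  -- a functional exposing `v`
  obtain ⟨a, ha0, ha⟩ : ∃ a : E →L[ℝ] ℝ, a (n v) = 0 ∧ ∀ w, w ≠ v → 0 < a (n w) := by
    rcases sep (Finset.univ.erase v) (fun w => (l (n w))⁻¹ • n w) ((l (n v))⁻¹ • n v) with
      ⟨c, hc1, hc2, hc3, hc4⟩ | ⟨b, hb⟩
    · exfalso
      apply hirr v
      refine ⟨fun w => l (n v) * (c w * (l (n w))⁻¹), ?_, ?_, ?_⟩
      · intro w
        have := hc1 w
        have := hl w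
        have := hl v
        positivity
      · beta_reduce
        rw [hc2 v (by simp)]; ring
      · have h1 : n v = l (n v) • ((l (n v))⁻¹ • n v) := by
          rw [smul_smul, mul_inv_cancel₀ (hl v).ne', one_smul]
        conv_lhs => rw [h1, hc4, Finset.smul_sum]
        apply Finset.sum_congr rfl
        intro w _
        rw [smul_smul, smul_smul]
        congr 1
        ring
    · refine ⟨b - (b ((l (n v))⁻¹ • n v)) • l, ?_, ?_⟩
      · have := (hl v).ne'
        simp only [sub_apply, smul_apply, map_smul,
          smul_eq_mul]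
        field_simp
        ring
      · intro w hw
        have h1 := hb w (by simp [hw])
        have h2 := hl w
        have h3 := (hl v).ne'
        simp only [sub_apply, smul_apply, map_smul,
          smul_eq_mul] at h1 ⊢
        have h4 : b (n w) - (l (n v))⁻¹ * b (n v) * l (n w) =
            l (n w) * ((l (n w))⁻¹ * b (n w) - (l (n v))⁻¹ * b (n v)) := by
          field_simp
        rw [h4]
        exact mul_pos h2 (by linarith)
  -- the projection
  set β : V → ℝ := fun w => l (n w) / l (n v) with hβ
  set π : E →L[ℝ] E := ContinuousLinearMap.id ℝ E - ((l (n v))⁻¹ • l).smulRight (n v) with hπ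
  have hπn : ∀ w, π (n w) = n w - β w • n v := by
    intro w
    simp only [hπ, hβ, sub_apply, ContinuousLinearMap.id_apply,
      ContinuousLinearMap.smulRight_apply, smul_apply, smul_eq_mul]
    congr 2
    rw [div_eq_inv_mul]
  have hπv : π (n v) = 0 := by
    rw [hπn, hβ]
    simp [div_self (hl v).ne']
  set r : V → E := fun w => (a (n w))⁻¹ • π (n w) with hr
  have hπr : ∀ w, w ≠ v → π (n w) = a (n w) • r w := by
    intro w hw
    rw [hr]
    simp only
    rw [smul_smul, mul_inv_cancel₀ (ha w hw).ne', one_smul]
  -- distinct generators have distinct directions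
  have hrinj : ∀ u w, u ≠ v → w ≠ v → u ≠ w → r u ≠ r w := by
    intro u w hu hw huw heq
    have hu' := ha u hu
    have hw' := ha w hw
    have h1 : π (n u) = (a (n u) / a (n w)) • π (n w) := by
      conv_lhs => rw [hπr u hu, heq]
      conv_rhs => rw [hπr w hw, smul_smul, div_mul_cancel₀ _ hw'.ne']
    set κ := a (n u) / a (n w) with hκ
    have hκ0 : 0 < κ := div_pos hu' hw'
    rw [hπn, hπn] at h1
    have h2 : n u = κ • n w + (β u - κ * β w) • n v := by
      have h3 : n u = κ • (n w - β w • n v) + β u • n v := by
        rw [← h1]; abel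
      rw [h3, smul_sub, sub_smul, smul_smul]; abel
    rcases le_or_gt 0 (β u - κ * β w) with h | h
    · exact hirr.not_two huw hu hw hκ0.le h h2
    · have h4 : n w = κ⁻¹ • n u + (-(β u - κ * β w) / κ) • n v := by
        rw [h2, smul_add, smul_smul, smul_smul, inv_mul_cancel₀ hκ0.ne', one_smul, add_assoc,
          ← add_smul]
        have : κ⁻¹ * (β u - κ * β w) + -(β u - κ * β w) / κ = 0 := by
          field_simp; ring
        rw [this, zero_smul, add_zero]
      refine hirr.not_two huw.symm hw hu (by positivity) ?_ h4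
      apply div_nonneg _ hκ0.le
      linarith
  -- minimal generating subsets of the vertex figure
  let Good : Finset V → Prop := fun S => v ∉ S ∧ ∀ u, u ≠ v → ∃ c : V → ℝ, (∀ w, 0 ≤ c w) ∧
    (∀ w, w ∉ S → c w = 0) ∧ ∑ w, c w = 1 ∧ r u = ∑ w, c w • r w
  have hgood0 : Good (Finset.univ.erase v) := by
    refine ⟨by simp, fun u hu => ⟨fun w => if w = u then 1 else 0, ?_, ?_, ?_, ?_⟩⟩
    · intro w; dsimp only; split_ifs <;> norm_num
    · intro w hw
      have : w = v := by simpa using hw
      subst this
      simp [hu.symm]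
    · simp
    · simp [ite_smul]
  obtain ⟨S, hSgood, hSmin⟩ : ∃ S, Good S ∧ ∀ S', S' ⊂ S → ¬ Good S' := by
    have hwf : WellFounded (fun S T : Finset V => S ⊂ T) := wellFounded_lt
    obtain ⟨S, h1, h2⟩ := hwf.has_min {S | Good S} ⟨_, hgood0⟩
    exact ⟨S, h1, fun S' h3 h4 => h2 S' h4 h3⟩
  have hvS : v ∉ S := hSgood.1
  -- members of `S` are neighbours of `v`
  have hedge : ∀ w ∈ S, Edge n v w := by
    intro w hw
    have hwv : w ≠ v := fun h => hvS (h ▸ hw)
    rcases sep (S.erase w) r (r w) with ⟨c, hc1, hc2, hc3, hc4⟩ | ⟨b, hb⟩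
    · exfalso
      refine hSmin (S.erase w) (Finset.erase_ssubset hw) ⟨?_, ?_⟩
      · intro h; exact hvS (Finset.mem_of_mem_erase h)
      · intro u hu
        obtain ⟨d, hd1, hd2, hd3, hd4⟩ := hSgood.2 u hu
        have hcw : c w = 0 := hc2 w (by simp)
        refine ⟨fun s => (if s = w then 0 else d s) + d w * c s, ?_, ?_, ?_, ?_⟩
        · intro s
          have h1 := hd1 s
          have h2 := hd1 w
          have h3 := hc1 s
          dsimp only
          split_ifs <;> positivity
        · intro s hs
          dsimp only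
          by_cases hsw : s = w
          · subst hsw; simp [hcw]
          · have : s ∉ S := fun h => hs (Finset.mem_erase.2 ⟨hsw, h⟩)
            rw [if_neg hsw, hd2 s this, hc2 s hs]; ring
        · rw [Finset.sum_add_distrib, ← Finset.mul_sum, hc3]
          have h1 : ∑ s, (if s = w then 0 else d s) = 1 - d w := by
            rw [← hd3, ← Finset.sum_erase_eq_sub (Finset.mem_univ w)]
            rw [← Finset.sum_erase Finset.univ (a := w) (f := fun s => if s = w then 0 else d s)
              (by simp)]
            apply Finset.sum_congr rfl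
            intro s hs
            rw [if_neg (Finset.ne_of_mem_erase hs)]
          rw [h1]; ring
        · simp_rw [add_smul, mul_smul]
          rw [Finset.sum_add_distrib, ← Finset.smul_sum, ← hc4, hd4]
          have h1 : ∑ s, (if s = w then 0 else d s) • r s = ∑ s, d s • r s - d w • r w := by
            rw [← Finset.sum_erase_eq_sub (Finset.mem_univ w)]
            rw [← Finset.sum_erase Finset.univ (a := w)
              (f := fun s => (if s = w then 0 else d s) • r s) (by simp)]
            apply Finset.sum_congr rfl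
            intro s hs
            rw [if_neg (Finset.ne_of_mem_erase hs)]
          rw [h1]; abel
    · refine ⟨hwv.symm, b.comp π - (b (r w)) • a, ?_, ?_, ?_⟩
      · simp only [sub_apply, ContinuousLinearMap.comp_apply,
          smul_apply, hπv, ha0, map_zero, smul_zero, sub_zero]
      · simp only [sub_apply, ContinuousLinearMap.comp_apply,
          smul_apply, hπr w hwv, map_smul, smul_eq_mul]
        ring
      · intro u huv huw
        obtain ⟨d, hd1, hd2, hd3, hd4⟩ := hSgood.2 u huv
        have h1 : (b.comp π - (b (r w)) • a) (n u) = a (n u) * (b (r u) - b (r w)) := by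
          simp only [sub_apply, ContinuousLinearMap.comp_apply,
            smul_apply, hπr u huv, map_smul, smul_eq_mul]
          ring
        rw [h1]
        apply mul_pos (ha u huv)
        have h2 : b (r u) - b (r w) = ∑ s, d s * (b (r s) - b (r w)) := by
          rw [hd4, map_sum]
          simp_rw [mul_sub, map_smul, smul_eq_mul]
          rw [Finset.sum_sub_distrib, ← Finset.sum_mul, hd3, one_mul]
        have h3 : ∀ s, 0 ≤ d s * (b (r s) - b (r w)) := by
          intro s
          by_cases hs : s ∈ S
          · by_cases hsw : s = w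
            · subst hsw; simp
            · have := hb s (Finset.mem_erase.2 ⟨hsw, hs⟩)
              exact mul_nonneg (hd1 s) (by linarith)
          · rw [hd2 s hs, zero_mul]
        rw [h2]
        by_contra hcon
        push Not at hcon
        have h4 : ∑ s, d s * (b (r s) - b (r w)) = 0 :=
          le_antisymm hcon (Finset.sum_nonneg fun s _ => h3 s)
        have h5 := (Finset.sum_eq_zero_iff_of_nonneg fun s _ => h3 s).1 h4
        have h6 : ∀ s, s ≠ w → d s = 0 := by
          intro s hsw
          by_cases hs : s ∈ S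
          · have h7 := h5 s (Finset.mem_univ s)
            have h8 := hb s (Finset.mem_erase.2 ⟨hsw, hs⟩)
            rcases mul_eq_zero.1 h7 with h9 | h9
            · exact h9
            · linarith
          · exact hd2 s hs
        have h7 : d w = 1 := by
          rw [← hd3]
          symm
          apply Finset.sum_eq_single w
          · intro s _ hs; exact h6 s hs
          · intro h; exact absurd (Finset.mem_univ w) h
        have h8 : r u = r w := by
          rw [hd4, Finset.sum_eq_single w]
          · rw [h7, one_smul]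
          · intro s _ hs; rw [h6 s hs, zero_smul]
          · intro h; exact absurd (Finset.mem_univ w) h
        exact hrinj u w huv hwv huw h8
  -- the expansion
  intro u hu
  obtain ⟨d, hd1, hd2, hd3, hd4⟩ := hSgood.2 u hu
  refine ⟨β u - ∑ s, a (n u) * d s * (a (n s))⁻¹ * β s,
    fun s => a (n u) * d s * (a (n s))⁻¹, ?_, ?_, ?_⟩
  · intro w
    by_cases hw : w ∈ S
    · have hwv : w ≠ v := fun h => hvS (h ▸ hw)
      have h1 := ha w hwv
      have h2 := ha u hu
      have h3 := hd1 w
      positivity
    · beta_reduce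
      rw [hd2 w hw]; simp
  · intro w hw
    apply hedge
    by_contra h
    apply hw
    beta_reduce
    rw [hd2 w h]; ring
  · have h1 : n u = β u • n v + a (n u) • r u := by
      rw [← hπr u hu, hπn]; abel
    conv_lhs => rw [h1, hd4, Finset.smul_sum]
    rw [sub_smul, Finset.sum_smul]
    have h2 : ∀ s, a (n u) • d s • r s = (a (n u) * d s * (a (n s))⁻¹) • n s -
        (a (n u) * d s * (a (n s))⁻¹ * β s) • n v := by
      intro s
      rw [hr]
      simp only
      rw [hπn, smul_smul, smul_smul, smul_sub, smul_smul]
    simp_rw [h2]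
    rw [Finset.sum_sub_distrib]
    abel

end Pool.Agent.Q132.CPoly
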